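import Mathlib

/-!
Regular forests: levels, grandchildren, the set of the vertices at distance two, and the parity
operator of this set.
-/

set_option autoImplicit false

open Function

namespace Pool.Agent.KS6_56.FI

open SimpleGraph

variable {V : Type}

/-- `H` is a forest all of whose vertices have degree `d ≥ 3` -/
structure Forest (H : SimpleGraph V) (d : ℕ) : Prop where
  ac : H.IsAcyclic
  deg : ∀ v, (H.neighborSet v).ncard = d
  hd : 3 ≤ d

/-- the root of the component of `v` -/
noncomputable def rt (H : SimpleGraph V) (v : V) : V := Quot.out (H.connectedComponentMk v)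

lemma reach_rt (H : SimpleGraph V) (v : V) : H.Reachable (rt H v) v :=
  ConnectedComponent.exact (Quot.out_eq (H.connectedComponentMk v))

lemma rt_eq (H : SimpleGraph V) {v w : V} (h : H.Adj v w) : rt H v = rt H w := by
  unfold rt
  rw [ConnectedComponent.sound h.reachable]

/-- the distance from the root -/
noncomputable def lev (H : SimpleGraph V) (v : V) : ℕ := H.dist (rt H v) v

variable {H : SimpleGraph V} {d : ℕ}

lemma lev_adj (hF : Forest H d) {v w : V} (h : H.Adj v w) :
    lev H v = lev H w + 1 ∨ lev H w = lev H v + 1 := by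
  unfold lev
  rw [← rt_eq H h]
  exact hF.ac.dist_eq_dist_add_one_of_adj_of_reachable _ h (reach_rt H v)

lemma parent_unique (hF : Forest H d) {v u₁ u₂ : V} (h₁ : H.Adj v u₁) (h₂ : H.Adj v u₂)
    (l₁ : lev H v = lev H u₁ + 1) (l₂ : lev H v = lev H u₂ + 1) : u₁ = u₂ := by
  obtain ⟨q, hq, hql⟩ := (reach_rt H v).exists_path_of_dist
  have key : ∀ u, H.Adj v u → lev H v = lev H u + 1 → u = q.penultimate := by
    intro u hu hl
    have hr : H.Reachable (rt H v) u := (reach_rt H v).trans hu.reachable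
    obtain ⟨p, hp, hpl⟩ := hr.exists_path_of_dist
    refine hF.ac.eq_penultimate_of_adj_end hq hu ?_
    by_contra hn
    have h1 : v ∈ p.support :=
      hF.ac.mem_support_of_ne_mem_support_of_adj_of_isPath hp hq hu.symm hn
    have h2 := hF.ac.path_concat hq hp hu h1
    have h3 : p.length = q.length + 1 := by rw [h2, Walk.length_concat]
    unfold lev at hl
    rw [← rt_eq H hu] at hl
    omega
  rw [key u₁ h₁ l₁, key u₂ h₂ l₂]

lemma nbr_finite (hF : Forest H d) (v : V) : (H.neighborSet v).Finite := by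
  refine Set.finite_of_ncard_ne_zero ?_
  rw [hF.deg v]
  have := hF.hd
  omega

/-- children -/
def chS (H : SimpleGraph V) (v : V) : Set V := {u | H.Adj v u ∧ lev H u = lev H v + 1}

lemma chS_finite (hF : Forest H d) (v : V) : (chS H v).Finite :=
  (nbr_finite hF v).subset fun _ hu => hu.1

lemma chS_card (hF : Forest H d) (v : V) : d - 1 ≤ (chS H v).ncard := by
  have h1 : H.neighborSet v ⊆ chS H v ∪ {u | H.Adj v u ∧ lev H v = lev H u + 1} := by
    intro u hu
    rcases lev_adj hF (show H.Adj v u from hu) with h | h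
    · exact Or.inr ⟨hu, h⟩
    · exact Or.inl ⟨hu, h⟩
  have hfin : {u | H.Adj v u ∧ lev H v = lev H u + 1}.Finite :=
    (nbr_finite hF v).subset fun _ hu => hu.1
  have h2 : {u | H.Adj v u ∧ lev H v = lev H u + 1}.ncard ≤ 1 := by
    rw [Set.ncard_le_one hfin]
    intro a ha b hb
    exact parent_unique hF ha.1 hb.1 ha.2 hb.2
  have h3 := Set.ncard_le_ncard h1 ((chS_finite hF v).union hfin)
  have h4 := Set.ncard_union_le (chS H v) {u | H.Adj v u ∧ lev H v = lev H u + 1}
  rw [hF.deg v] at h3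
  omega

lemma exists_ch (hF : Forest H d) (v : V) :
    ∃ c : Fin (d - 1) → V, Injective c ∧ ∀ k, c k ∈ chS H v := by
  classical
  have hfin := chS_finite hF v
  have : Fintype (chS H v) := hfin.fintype
  have h1 : Fintype.card (Fin (d - 1)) ≤ Fintype.card (chS H v) := by
    rw [Fintype.card_fin, ← Nat.card_eq_fintype_card]
    exact chS_card hF v
  obtain ⟨e⟩ := Function.Embedding.nonempty_of_card_le h1
  exact ⟨fun k => (e k).1, fun a b h => e.injective (Subtype.ext h), fun k => (e k).2⟩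

/-- grandchildren -/
lemma exists_gc (hF : Forest H d) :
    ∃ gc : V × (Fin (d - 1) × Fin (d - 1)) → V, Injective gc ∧
      ∀ v k, ∃ u, H.Adj v u ∧ H.Adj u (gc (v, k)) ∧ lev H u = lev H v + 1 ∧
        lev H (gc (v, k)) = lev H u + 1 := by
  choose c hinj hc using exists_ch hF
  refine ⟨fun q => c (c q.1 q.2.1) q.2.2, ?_, ?_⟩
  · rintro ⟨v, k₁, k₂⟩ ⟨w, m₁, m₂⟩ h
    simp only at h
    have a1 := hc (c v k₁) k₂
    have a2 := hc (c w m₁) m₂
    rw [← h] at a2
    have h1 : c v k₁ = c w m₁ := parent_unique hF a1.1.symm a2.1.symm a1.2 a2.2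
    have b1 := hc v k₁
    have b2 := hc w m₁
    rw [← h1] at b2
    have h2 : v = w := parent_unique hF b1.1.symm b2.1.symm b1.2 b2.2
    subst h2
    have h3 : k₁ = m₁ := hinj v h1
    subst h3
    have h4 : k₂ = m₂ := hinj _ h
    rw [h4]
  · intro v k
    exact ⟨c v k.1, (hc v k.1).1, (hc (c v k.1) k.2).1, (hc v k.1).2, (hc (c v k.1) k.2).2⟩

/-- the vertices at distance two -/
def N2 (H : SimpleGraph V) (v : V) : Set V := {w | w ≠ v ∧ ∃ u, H.Adj v u ∧ H.Adj u w}

lemma N2_symm {v w : V} (h : w ∈ N2 H v) : v ∈ N2 H w := by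
  obtain ⟨h1, u, h2, h3⟩ := h
  exact ⟨h1.symm, u, h3.symm, h2.symm⟩

lemma gc_mem {v w u : V} (h1 : H.Adj v u) (h2 : H.Adj u w) (h3 : lev H u = lev H v + 1)
    (h4 : lev H w = lev H u + 1) : w ∈ N2 H v := by
  refine ⟨?_, u, h1, h2⟩
  rintro rfl
  omega

lemma gc_unique (hF : Forest H d) {v w u v' : V} (h1 : H.Adj v u) (h2 : H.Adj u w)
    (h3 : lev H u = lev H v + 1) (h4 : lev H w = lev H u + 1) (hw : w ∈ N2 H v')
    (hl : lev H v' ≤ lev H v) : v' = v := by
  obtain ⟨_, u', a1, a2⟩ := hw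
  have b1 := lev_adj hF a1
  have b2 := lev_adj hF a2
  have e1 : u' = u := parent_unique hF a2.symm h2.symm (by omega) (by omega)
  subst e1
  exact parent_unique hF a1.symm h1.symm (by omega) (by omega)

lemma N2_finite_card (hF : Forest H d) (v : V) :
    (N2 H v).Finite ∧ (N2 H v).ncard ≤ d * (d - 1) := by
  classical
  set F : Finset V := (nbr_finite hF v).toFinset with hFdef
  set K : V → Finset V := fun u => ((nbr_finite hF u).toFinset).erase v with hK
  have hsub : N2 H v ⊆ ((F.biUnion K : Finset V) : Set V) := by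
    rintro w ⟨h1, u, h2, h3⟩
    simp only [Finset.coe_biUnion, Set.mem_iUnion, Finset.mem_coe, hFdef, hK,
      Set.Finite.mem_toFinset, Finset.mem_erase, mem_neighborSet]
    exact ⟨u, h2, h1, h3⟩
  refine ⟨(Finset.finite_toSet _).subset hsub, ?_⟩
  have h1 : (N2 H v).ncard ≤ (F.biUnion K).card := by
    rw [← Set.ncard_coe_finset]
    exact Set.ncard_le_ncard hsub (Finset.finite_toSet _)
  refine h1.trans ?_
  have hFc : F.card = d := by
    rw [hFdef, ← Set.ncard_eq_toFinset_card _ (nbr_finite hF v), hF.deg v]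
  rw [← hFc]
  refine Finset.card_biUnion_le_card_mul _ _ _ ?_
  intro u hu
  have hvu : v ∈ (nbr_finite hF u).toFinset := by
    rw [Set.Finite.mem_toFinset]
    have : H.Adj v u := by
      simpa [hFdef] using hu
    exact this.symm
  rw [hK]
  simp only
  rw [Finset.card_erase_of_mem hvu, ← Set.ncard_eq_toFinset_card _ (nbr_finite hF u), hF.deg u,
    hFc]

open Classical in
/-- the same as a finite set -/
noncomputable def N2F (H : SimpleGraph V) (v : V) : Finset V :=
  if h : (N2 H v).Finite then h.toFinset else ∅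

lemma mem_N2F (hF : Forest H d) {v w : V} : w ∈ N2F H v ↔ w ∈ N2 H v := by
  unfold N2F
  rw [dif_pos (N2_finite_card hF v).1, Set.Finite.mem_toFinset]

/-- the parity operator -/
noncomputable def Aop (H : SimpleGraph V) (x : V → ZMod 2) (v : V) : ZMod 2 :=
  ∑ w ∈ N2F H v, x w

lemma Aop_add (x y : V → ZMod 2) : Aop H (x + y) = Aop H x + Aop H y := by
  funext v
  simp [Aop, Finset.sum_add_distrib]

lemma N2_map {γ : V ≃ V} (hγ : ∀ v w, H.Adj (γ v) (γ w) ↔ H.Adj v w) (v w : V) :
    γ w ∈ N2 H (γ v) ↔ w ∈ N2 H v := by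
  constructor
  · rintro ⟨h1, u, h2, h3⟩
    refine ⟨fun h => h1 (by rw [h]), γ.symm u, ?_, ?_⟩
    · rw [← hγ]; simpa using h2
    · rw [← hγ]; simpa using h3
  · rintro ⟨h1, u, h2, h3⟩
    exact ⟨fun h => h1 (γ.injective h), γ u, (hγ _ _).2 h2, (hγ _ _).2 h3⟩

lemma Aop_equivariant (hF : Forest H d) {γ : V ≃ V}
    (hγ : ∀ v w, H.Adj (γ v) (γ w) ↔ H.Adj v w) (x : V → ZMod 2) (v : V) :
    Aop H (fun w => x (γ w)) v = Aop H x (γ v) := by
  unfold Aop
  have h : N2F H (γ v) = (N2F H v).map γ.toEmbedding := by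
    ext w
    rw [mem_N2F hF, Finset.mem_map]
    constructor
    · intro hw
      refine ⟨γ.symm w, ?_, by simp⟩
      rw [mem_N2F hF, ← N2_map hγ]
      simpa using hw
    · rintro ⟨u, hu, rfl⟩
      rw [mem_N2F hF] at hu
      exact (N2_map hγ _ _).2 hu
  rw [h, Finset.sum_map]
  rfl

/-- solvability on finite sets -/
lemma exists_solve (hF : Forest H d) (y : V → ZMod 2) (F : Finset V) :
    ∃ x, ∀ v ∈ F, Aop H x v = y v := by
  classical
  obtain ⟨gc, _, hgc⟩ := exists_gc hF
  have hd := hF.hd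
  let k : Fin (d - 1) × Fin (d - 1) := (⟨0, by omega⟩, ⟨0, by omega⟩)
  induction F using Finset.induction_on_max_value (lev H) with
  | empty => exact ⟨0, by simp⟩
  | insert a s ha hmax ih =>
    obtain ⟨x, hx⟩ := ih
    obtain ⟨u, h1, h2, h3, h4⟩ := hgc a k
    have hA1 : ∀ t : ZMod 2, Aop H (Pi.single (gc (a, k)) t) a = t := by
      intro t
      unfold Aop
      rw [Finset.sum_eq_single (gc (a, k))]
      · simp
      · intro w _ hw
        rw [Pi.single_apply, if_neg hw]
      · intro hn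
        exact absurd ((mem_N2F hF).2 (gc_mem h1 h2 h3 h4)) hn
    have hA0 : ∀ t : ZMod 2, ∀ v ∈ s, Aop H (Pi.single (gc (a, k)) t) v = 0 := by
      intro t v hv
      unfold Aop
      refine Finset.sum_eq_zero fun w hw => ?_
      rw [Pi.single_apply, if_neg]
      rintro rfl
      have := gc_unique hF h1 h2 h3 h4 ((mem_N2F hF).1 hw) (hmax v hv)
      exact ha (this ▸ hv)
    refine ⟨x + Pi.single (gc (a, k)) (y a - Aop H x a), fun v hv => ?_⟩
    rw [Aop_add, Pi.add_apply]
    rcases Finset.mem_insert.1 hv with rfl | hv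
    · rw [hA1]; ring
    · rw [hA0 _ v hv, add_zero]; exact hx v hv

end Pool.Agent.KS6_56.FI
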