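import Pool.Agent.KS6_56.FI.A
import Pool.Graph.R_pool_sql_team_seeded_620a6dc7.helper25_fiid_.Final

/-!
The inverse limit process of the parity operator of an invariant regular forest, and its
approximations.
-/

set_option autoImplicit false
set_option linter.unusedSectionVars false

open MeasureTheory Set Function Filter Topology
open scoped ENNReal

namespace Pool.Agent.KS6_56.FI

open Pool.Agent.helper25_fiid

variable {V : Type} [Countable V] {H : SimpleGraph V} {d : ℕ}

/-- the parity operator as a homomorphism -/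
noncomputable def AH (H : SimpleGraph V) : Cfg V →+ Cfg V := AddMonoidHom.mk' (Aop H) Aop_add

lemma AH_apply (x : Cfg V) : AH H x = Aop H x := rfl

lemma continuous_AH : Continuous (AH H) := by
  refine continuous_pi fun v => ?_
  show Continuous fun x : Cfg V => ∑ w ∈ N2F H v, x w
  fun_prop

lemma surjective_AH (hF : Forest H d) : Surjective (AH H) := by
  intro y
  let C : Finset V → Set (Cfg V) := fun F => {x | ∀ v ∈ F, AH H x v = y v}
  have hcl : ∀ F, IsClosed (C F) := by
    intro F
    have : C F = ⋂ v ∈ F, {x | AH H x v = y v} := by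
      ext x; simp [C]
    rw [this]
    refine isClosed_biInter fun v _ => ?_
    exact isClosed_eq ((continuous_apply v).comp continuous_AH) continuous_const
  have hne : (⋂ F, C F).Nonempty := by
    refine IsCompact.nonempty_iInter_of_directed_nonempty_isCompact_isClosed C ?_
      (fun F => exists_solve hF y F) (fun F => (hcl F).isCompact) hcl
    classical
    intro F F'
    refine ⟨F ∪ F', fun x hx v hv => hx v (Finset.mem_union_left _ hv),
      fun x hx v hv => hx v (Finset.mem_union_right _ hv)⟩
  obtain ⟨x, hx⟩ := hne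
  refine ⟨x, ?_⟩
  funext v
  exact mem_iInter.1 hx {v} v (Finset.mem_singleton_self v)

/-- the limit measure -/
noncomputable abbrev PP (H : SimpleGraph V) : Measure (ℕ → Cfg V) :=
  limP (AH H) continuous_AH

/-- site-wise encoding -/
noncomputable def En (x : ℕ → Cfg V) : V → ℝ := fun v => enc fun m => x m v

/-- site-wise truncated encoding -/
noncomputable def Enn (k : ℕ) (x : ℕ → Cfg V) : V → ℝ := fun v => encn k fun m => x m v

/-- the pair -/
noncomputable def EnP (k : ℕ) (x : ℕ → Cfg V) : V → ℝ × ℝ := fun v => (Enn k x v, En x v)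

lemma meas_site (v : V) : Measurable fun x : ℕ → Cfg V => fun m => x m v := by
  fun_prop

lemma measurable_En : Measurable (En : (ℕ → Cfg V) → (V → ℝ)) :=
  measurable_pi_lambda _ fun v => continuous_enc.measurable.comp (meas_site v)

lemma measurable_Enn (k : ℕ) : Measurable (Enn k : (ℕ → Cfg V) → (V → ℝ)) :=
  measurable_pi_lambda _ fun v => (continuous_encn k).measurable.comp (meas_site v)

lemma measurable_EnP (k : ℕ) : Measurable (EnP k : (ℕ → Cfg V) → (V → ℝ × ℝ)) :=
  measurable_pi_lambda _ fun v => ((measurable_pi_apply v).comp (measurable_Enn k)).prodMk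
    ((measurable_pi_apply v).comp measurable_En)

/-- the limit process -/
noncomputable def YH (H : SimpleGraph V) : Measure (V → ℝ) := (PP H).map En

/-- the approximating processes -/
noncomputable def XH (H : SimpleGraph V) (k : ℕ) : Measure (V → ℝ) := (PP H).map (Enn k)

/-- the coupling -/
noncomputable def PiH (H : SimpleGraph V) (k : ℕ) : Measure (V → ℝ × ℝ) := (PP H).map (EnP k)

/-- `H` is invariant under the automorphisms of `G` -/
def Inv (G H : SimpleGraph V) : Prop :=
  ∀ (γ : G ≃g G) (v w : V), H.Adj (γ v) (γ w) ↔ H.Adj v w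

variable {G : SimpleGraph V}

lemma meas_act {α : Type} [MeasurableSpace α] (γ : G ≃g G) :
    Measurable (act γ : (V → α) → (V → α)) :=
  measurable_pi_lambda _ fun _ => measurable_pi_apply _

lemma PP_relabel (hF : Forest H d) (hG : Inv G H) (γ : G ≃g G) :
    (PP H).map (relabel γ.toEquiv) = PP H :=
  limP_relabel continuous_AH fun x v => Aop_equivariant hF (γ := γ.toEquiv) (hG γ) x v

lemma inv_map (hF : Forest H d) (hG : Inv G H) {α : Type} [MeasurableSpace α]
    {F : (ℕ → Cfg V) → (V → α)} (hFm : Measurable F)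
    (heq : ∀ (γ : G ≃g G) x, act γ (F x) = F (relabel γ.symm.toEquiv x)) :
    IsInvariantLaw G ((PP H).map F) where
  isProbabilityMeasure := Measure.isProbabilityMeasure_map hFm.aemeasurable
  invariant := by
    intro γ
    rw [Measure.map_map (meas_act γ) hFm]
    have : act γ ∘ F = F ∘ relabel γ.symm.toEquiv := by
      funext x; exact heq γ x
    rw [this, ← Measure.map_map hFm (measurable_relabel _), PP_relabel hF hG]

lemma inv_YH (hF : Forest H d) (hG : Inv G H) : IsInvariantLaw G (YH H) :=
  inv_map hF hG measurable_En fun _ _ => rfl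

lemma inv_XH (hF : Forest H d) (hG : Inv G H) (k : ℕ) : IsInvariantLaw G (XH H k) :=
  inv_map hF hG (measurable_Enn k) fun _ _ => rfl

lemma inv_PiH (hF : Forest H d) (hG : Inv G H) (k : ℕ) : IsInvariantLaw G (PiH H k) :=
  inv_map hF hG (measurable_EnP k) fun _ _ => rfl

lemma second_YH : FiniteSecondMoment (YH H) := by
  intro v
  unfold YH
  rw [lintegral_map (by fun_prop) measurable_En]
  calc ∫⁻ x, ENNReal.ofReal ((En x v) ^ 2) ∂(PP H) ≤ ∫⁻ _x, ENNReal.ofReal 4 ∂(PP H) := by
        refine lintegral_mono fun x => ENNReal.ofReal_le_ofReal ?_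
        have h1 := enc_nonneg fun m => x m v
        have h2 := enc_le fun m => x m v
        show (enc fun m => x m v) ^ 2 ≤ 4
        nlinarith
    _ < ∞ := by simp

lemma second_XH (k : ℕ) : FiniteSecondMoment (XH H k) := by
  intro v
  unfold XH
  rw [lintegral_map (by fun_prop) (measurable_Enn k)]
  calc ∫⁻ x, ENNReal.ofReal ((Enn k x v) ^ 2) ∂(PP H) ≤ ∫⁻ _x, ENNReal.ofReal 4 ∂(PP H) := by
        refine lintegral_mono fun x => ENNReal.ofReal_le_ofReal ?_
        have h1 := encn_nonneg k fun m => x m v
        have h2 := encn_le k fun m => x m v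
        show (encn k fun m => x m v) ^ 2 ≤ 4
        nlinarith
    _ < ∞ := by simp

lemma dbar_le (hF : Forest H d) (hG : Inv G H) (o : V) (k : ℕ) :
    dbar2 G o (XH H k) (YH H) ≤ ENNReal.ofReal ((1 / 3 : ℝ) ^ k) := by
  have hc : IsInvariantCoupling G (XH H k) (YH H) (PiH H k) := by
    refine ⟨inv_PiH hF hG k, ?_, ?_⟩
    · unfold PiH XH
      rw [Measure.map_map (by fun_prop) (measurable_EnP k)]
      rfl
    · unfold PiH YH
      rw [Measure.map_map (by fun_prop) (measurable_EnP k)]
      rfl
  have hle : (⨅ (π : Measure (V → ℝ × ℝ)) (_ : IsInvariantCoupling G (XH H k) (YH H) π),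
      ∫⁻ y, ENNReal.ofReal (((y o).1 - (y o).2) ^ 2) ∂π)
      ≤ ENNReal.ofReal (((1 / 3 : ℝ) ^ k) ^ 2) := by
    refine (iInf₂_le (PiH H k) hc).trans ?_
    unfold PiH
    rw [lintegral_map (by fun_prop) (measurable_EnP k)]
    calc ∫⁻ x, ENNReal.ofReal (((EnP k x o).1 - (EnP k x o).2) ^ 2) ∂(PP H)
        ≤ ∫⁻ _x, ENNReal.ofReal (((1 / 3 : ℝ) ^ k) ^ 2) ∂(PP H) := by
          refine lintegral_mono fun x => ENNReal.ofReal_le_ofReal ?_
          have := enc_sub_encn k fun m => x m o
          have hd : (EnP k x o).1 - (EnP k x o).2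
              = (encn k fun m => x m o) - enc fun m => x m o := rfl
          rw [hd]
          exact sq_le_sq' (by linarith [neg_le_of_abs_le this]) (le_of_abs_le this)
      _ = ENNReal.ofReal (((1 / 3 : ℝ) ^ k) ^ 2) := by simp
  unfold dbar2
  calc (⨅ (π : Measure (V → ℝ × ℝ)) (_ : IsInvariantCoupling G (XH H k) (YH H) π),
      ∫⁻ y, ENNReal.ofReal (((y o).1 - (y o).2) ^ 2) ∂π) ^ (1 / 2 : ℝ)
      ≤ (ENNReal.ofReal (((1 / 3 : ℝ) ^ k) ^ 2)) ^ (1 / 2 : ℝ) :=
        ENNReal.rpow_le_rpow hle (by norm_num)
    _ = ENNReal.ofReal ((1 / 3 : ℝ) ^ k) := by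
        rw [ENNReal.ofReal_rpow_of_nonneg (by positivity) (by norm_num), ← Real.sqrt_eq_rpow,
          Real.sqrt_sq (by positivity)]

lemma tendsto_dbar (hF : Forest H d) (hG : Inv G H) (o : V) :
    Tendsto (fun k => dbar2 G o (XH H k) (YH H)) atTop (𝓝 0) := by
  have h : Tendsto (fun k : ℕ => ENNReal.ofReal ((1 / 3 : ℝ) ^ k)) atTop (𝓝 0) := by
    have := ENNReal.tendsto_ofReal (tendsto_pow_atTop_nhds_zero_of_lt_one
      (show (0 : ℝ) ≤ 1 / 3 by norm_num) (by norm_num))
    simpa using this
  exact tendsto_of_tendsto_of_tendsto_of_le_of_le tendsto_const_nhds h (fun _ => bot_le)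
    (fun k => dbar_le hF hG o k)

lemma iterate_equivariant (hF : Forest H d) (hG : Inv G H) (γ : G ≃g G) (k : ℕ) (x : Cfg V)
    (v : V) : ((AH H)^[k] fun w => x (γ w)) v = ((AH H)^[k] x) (γ v) := by
  induction k generalizing x v with
  | zero => rfl
  | succ k ih =>
    rw [iterate_succ_apply, iterate_succ_apply]
    have : AH H (fun w => x (γ w)) = fun w => (AH H x) (γ w) := by
      funext w
      exact Aop_equivariant hF (γ := γ.toEquiv) (hG γ) x w
    rw [this]
    exact ih _ _

/-- the block factor -/
noncomputable def Ps (H : SimpleGraph V) (k : ℕ) (y : Cfg V) : V → ℝ :=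
  fun v => encn k fun m => ((AH H)^[k - m] y) v

lemma measurable_Ps (k : ℕ) : Measurable (Ps H k : Cfg V → (V → ℝ)) := by
  refine measurable_pi_lambda _ fun v => (continuous_encn k).measurable.comp ?_
  refine measurable_pi_lambda _ fun m => (measurable_pi_apply v).comp ?_
  exact ((continuous_AH (H := H)).iterate (k - m)).measurable

/-- site-wise bits -/
noncomputable def bts (ω : V → unitInterval) : Cfg V := fun v => bit (ω v)

lemma measurable_bts : Measurable (bts : (V → unitInterval) → Cfg V) :=
  measurable_pi_lambda _ fun v => measurable_bit.comp (measurable_pi_apply v)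

lemma map_bts : (iidUniform V).map bts = iid V unifZ :=
  Measure.infinitePi_map_pi (fun _ : V => (volume : Measure unitInterval))
    (f := fun _ => bit) (fun _ => measurable_bit)

lemma lim_iterate {x : ℕ → Cfg V} (hx : x ∈ limG (AH H)) (m j : ℕ) :
    x m = (AH H)^[j] (x (m + j)) := by
  induction j with
  | zero => rfl
  | succ j ih => rw [iterate_succ_apply, ← add_assoc, hx (m + j), ← ih]

lemma fiid_XH (hF : Forest H d) (hG : Inv G H) (k : ℕ) : IsFIID G (XH H k) := by
  refine ⟨Ps H k ∘ bts, (measurable_Ps k).comp measurable_bts, ?_, ?_⟩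
  · intro γ ω
    funext v
    show encn k (fun m => ((AH H)^[k - m] (bts (act γ ω))) v)
      = encn k (fun m => ((AH H)^[k - m] (bts ω)) (γ.symm v))
    congr 1
    funext m
    exact iterate_equivariant hF hG γ.symm (k - m) (bts ω) v
  · rw [← Measure.map_map (measurable_Ps k) measurable_bts, map_bts,
      ← limP_coord continuous_AH (surjective_AH hF) k,
      Measure.map_map (measurable_Ps k) (measurable_pi_apply k)]
    unfold XH
    refine Measure.map_congr ?_
    filter_upwards [limP_mem (continuous_AH (H := H))] with x hx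
    funext v
    show encn k (fun m => ((AH H)^[k - m] (x k)) v) = encn k fun m => x m v
    unfold encn
    refine Finset.sum_congr rfl fun m hm => ?_
    have hmk : m ≤ k := by
      have := Finset.mem_range.1 hm
      omega
    have h1 := lim_iterate hx m (k - m)
    rw [Nat.add_sub_cancel' hmk] at h1
    have h2 : ((AH H)^[k - m] (x k)) v = x m v := by rw [← h1]
    simp only [h2]

end Pool.Agent.KS6_56.FI
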