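import Pool.Agent.KS6_56.FI.B

/-!
The inverse limit process of an invariant regular forest is not a factor of i.i.d., when a group of
automorphisms acts freely, with an orbit that contains a component of the forest.
-/

set_option autoImplicit false
set_option linter.unusedSectionVars false

open MeasureTheory Set Function Filter Topology
open scoped ENNReal

namespace Pool.Agent.KS6_56.FI

open Pool.Agent.helper25_fiid

section Act

variable {V : Type} {G : SimpleGraph V} {Λ : Type} [Group Λ] [MulAction Λ V]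

/-- the group acts by automorphisms of `G` -/
def ActsOn (Λ : Type) [Group Λ] (G : SimpleGraph V) [MulAction Λ V] : Prop :=
  ∀ (g : Λ) (v w : V), G.Adj (g • v) (g • w) ↔ G.Adj v w

/-- the automorphism given by an element of the group -/
def au (hact : ActsOn Λ G) (g : Λ) : G ≃g G where
  toEquiv := MulAction.toPerm g
  map_rel_iff' := by
    intro v w
    exact hact g v w

lemma au_apply (hact : ActsOn Λ G) (g : Λ) (v : V) : au hact g v = g • v := rfl

lemma au_symm_apply (hact : ActsOn Λ G) (g : Λ) (v : V) : (au hact g).symm v = g⁻¹ • v := rfl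

/-- the action is free -/
def FreeAct (Λ V : Type) [Group Λ] [MulAction Λ V] : Prop := ∀ (g : Λ) (v : V), g • v = v → g = 1

lemma free_inj (hfree : FreeAct Λ V) {g h : Λ} {v : V} (e : g • v = h • v) : g = h := by
  have h1 : (h⁻¹ * g) • v = v := by rw [mul_smul, e, inv_smul_smul]
  have h2 := hfree _ _ h1
  rw [inv_mul_eq_one] at h2
  exact h2.symm

/-- the orbits -/
abbrev Orb (Λ V : Type) [Group Λ] [MulAction Λ V] : Type := Quotient (MulAction.orbitRel Λ V)

/-- the vertex with the given coordinates -/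
noncomputable def ev (p : Λ × Orb Λ V) : V := p.1⁻¹ • Quotient.out p.2

lemma ev_bij (hfree : FreeAct Λ V) : Bijective (ev : Λ × Orb Λ V → V) := by
  constructor
  · rintro ⟨g, o⟩ ⟨g', o'⟩ h
    have h : g⁻¹ • Quotient.out o = g'⁻¹ • Quotient.out o' := h
    have ho : o = o' := by
      have h1 : (MulAction.orbitRel Λ V) (Quotient.out o) (Quotient.out o') := by
        rw [MulAction.orbitRel_apply]
        refine ⟨g * g'⁻¹, ?_⟩
        show (g * g'⁻¹) • Quotient.out o' = Quotient.out o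
        rw [mul_smul, ← h, smul_inv_smul]
      have h2 := Quotient.sound h1
      rwa [Quotient.out_eq, Quotient.out_eq] at h2
    subst ho
    have h3 := free_inj hfree h
    rw [inv_inj] at h3
    rw [h3]
  · intro v
    have h1 : (MulAction.orbitRel Λ V) (Quotient.out (Quotient.mk (MulAction.orbitRel Λ V) v)) v :=
      Quotient.exact (Quotient.out_eq _)
    rw [MulAction.orbitRel_apply] at h1
    obtain ⟨g, hg⟩ := h1
    refine ⟨(g, Quotient.mk (MulAction.orbitRel Λ V) v), ?_⟩
    show g⁻¹ • Quotient.out (Quotient.mk (MulAction.orbitRel Λ V) v) = v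
    rw [← hg]
    exact inv_smul_smul g v

/-- coordinates -/
noncomputable def evE (hfree : FreeAct Λ V) : Λ × Orb Λ V ≃ V := Equiv.ofBijective ev (ev_bij hfree)

variable {E : Type} [MeasurableSpace E] (ν : Measure E) [IsProbabilityMeasure ν]

/-- labels in coordinates -/
noncomputable def th (hfree : FreeAct Λ V) (x : Λ → (Orb Λ V → E)) : V → E :=
  fun v => x ((evE hfree).symm v).1 ((evE hfree).symm v).2

omit [MeasurableSpace E] in
lemma th_ev (hfree : FreeAct Λ V) (x : Λ → (Orb Λ V → E)) (p : Λ × Orb Λ V) :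
    th hfree x (ev p) = x p.1 p.2 := by
  unfold th
  have : (evE hfree).symm (ev p) = p := (evE hfree).symm_apply_apply p
  rw [this]

lemma measurable_th (hfree : FreeAct Λ V) : Measurable (th (Λ := Λ) (E := E) hfree) :=
  measurable_pi_lambda _ fun v => (measurable_pi_apply _).comp (measurable_pi_apply _)

lemma map_th (hfree : FreeAct Λ V) :
    (iid Λ (iid (Orb Λ V) ν)).map (th hfree) = iid V ν := by
  have h1 := Measure.infinitePi_map_curry_symm (ι := Λ) (κ := Orb Λ V) (X := E)
    (fun _ _ => ν)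
  have h2 := Measure.infinitePi_map_piCongrLeft (X := fun _ : V => E)
    (fun _ : V => ν) (evE hfree)
  have h3 : th (Λ := Λ) (E := E) hfree = (MeasurableEquiv.piCongrLeft (fun _ : V => E) (evE hfree)) ∘
      (MeasurableEquiv.curry Λ (Orb Λ V) E).symm := by
    funext x v
    obtain ⟨p, rfl⟩ := (evE hfree).surjective v
    show th hfree x (ev p) = _
    rw [th_ev]
    simp only [Function.comp_apply]
    rw [MeasurableEquiv.coe_piCongrLeft, Equiv.piCongrLeft_apply_apply]
    rfl
  unfold iid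
  rw [h3, ← Measure.map_map (by fun_prop) (by fun_prop), h1, h2]

omit [MeasurableSpace E] in
lemma th_shift (hfree : FreeAct Λ V) (h : Λ) (x : Λ → (Orb Λ V → E)) :
    th hfree (shift h x) = fun v => th hfree x (h⁻¹ • v) := by
  funext v
  obtain ⟨p, rfl⟩ := (evE hfree).surjective v
  show th hfree (shift h x) (ev p) = th hfree x (h⁻¹ • (ev p : V))
  rw [th_ev]
  have : h⁻¹ • (ev p : V) = ev ((p.1 * h, p.2) : Λ × Orb Λ V) := by
    unfold ev
    simp only [mul_inv_rev, mul_smul]
  rw [this, th_ev]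
  rfl

end Act

section Main

variable {V : Type} [Countable V] {G H : SimpleGraph V} {d : ℕ} {Λ : Type} [Group Λ]
  [MulAction Λ V]

lemma ite_zmod2 (t : ZMod 2) : t = if t = 1 then 1 else 0 := by
  revert t; decide

lemma inv_act (hG : Inv G H) (hact : ActsOn Λ G) (g : Λ) (v w : V) :
    H.Adj (g • v) (g • w) ↔ H.Adj v w := hG (au hact g) v w

lemma reach_smul (hG : Inv G H) (hact : ActsOn Λ G) (g : Λ) {v w : V} (h : H.Reachable v w) :
    H.Reachable (g • v) (g • w) := by
  obtain ⟨p⟩ := h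
  induction p with
  | nil => exact SimpleGraph.Reachable.refl _
  | cons hadj _ ih => exact ((inv_act hG hact g _ _).2 hadj).reachable.trans ih

lemma N2_reach {v w : V} (h : w ∈ N2 H v) : H.Reachable v w := by
  obtain ⟨_, u, h1, h2⟩ := h
  exact h1.reachable.trans h2.reachable

/-- `μ` is the law of a factor of i.i.d. labels (in any probability space) by a map which commutes
with the elements of `Λ` almost surely. -/
def IsFactorIID (Λ : Type) [Group Λ] {V : Type} [MulAction Λ V] (μ : Measure (V → ℝ)) : Prop :=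
  ∃ (E : Type) (_ : MeasurableSpace E) (ν : Measure E) (_ : IsProbabilityMeasure ν)
    (Φ : (V → E) → (V → ℝ)), Measurable Φ ∧
    (∀ g : Λ, ∀ᵐ ω ∂(Measure.infinitePi fun _ : V => ν),
      Φ (fun v => ω (g⁻¹ • v)) = fun v => Φ ω (g⁻¹ • v)) ∧
    (Measure.infinitePi fun _ : V => ν).map Φ = μ

theorem not_factor (hF : Forest H d) (hG : Inv G H) (hact : ActsOn Λ G) (hfree : FreeAct Λ V)
    (v₀ : V) (hcomp : ∀ w, H.Reachable v₀ w → ∃ g : Λ, g • v₀ = w) : ¬ IsFactorIID Λ (YH H) := by
  classical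
  rintro ⟨E, _, ν₀, _, Φ, hΦ, heq, hlaw⟩
  have hΛ : Countable Λ := by
    have : Injective (fun g : Λ => g • v₀) := fun g h e => free_inj hfree e
    exact this.countable
  obtain ⟨dec, hdec, hde⟩ := exists_dec
  let ν : Measure (Orb Λ V → E) := iid (Orb Λ V) ν₀
  have hνp : IsProbabilityMeasure ν := by
    show IsProbabilityMeasure (iid (Orb Λ V) ν₀)
    infer_instance
  let S : ℕ → Set (Λ → (Orb Λ V → E)) := fun m => {x | dec (Φ (th hfree x) v₀) m = 1}
  have hmeas1 : ∀ (v : V) (m : ℕ), Measurable fun y : V → ℝ => dec (y v) m := fun v m =>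
    (measurable_pi_apply m).comp (hdec.comp (measurable_pi_apply v))
  have hth := measurable_th (Λ := Λ) (E := E) hfree
  have hS : ∀ m, MeasurableSet (S m) := fun m =>
    ((hmeas1 v₀ m).comp (hΦ.comp hth)) (measurableSet_singleton 1)
  have hT : ∀ m, MeasurableSet {y : V → ℝ | dec (y v₀) m = 1} := fun m =>
    (hmeas1 v₀ m) (measurableSet_singleton 1)
  have hmap : (iid Λ ν).map (th hfree) = iid V ν₀ := map_th ν₀ hfree
  -- every coordinate is a fair bit
  have hhalf : ∀ m, (iid Λ ν).real (S m) = 1 / 2 := by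
    intro m
    have h0 : (iid Λ ν) (S m) = (iid V ν₀) {ω | dec (Φ ω v₀) m = 1} := by
      have hm0 : MeasurableSet {ω : V → E | dec (Φ ω v₀) m = 1} :=
        ((hmeas1 v₀ m).comp hΦ) (measurableSet_singleton 1)
      rw [← hmap, Measure.map_apply hth hm0]
      rfl
    have h1 : (iid V ν₀) {ω | dec (Φ ω v₀) m = 1} = YH H {y | dec (y v₀) m = 1} := by
      rw [← hlaw, Measure.map_apply hΦ (hT m)]
      rfl
    have h2 : YH H {y | dec (y v₀) m = 1} = unifZ {1} := by
      unfold YH
      rw [Measure.map_apply measurable_En (hT m)]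
      have : En ⁻¹' {y : V → ℝ | dec (y v₀) m = 1}
          = (fun x : ℕ → Cfg V => x m) ⁻¹' ((fun z : Cfg V => z v₀) ⁻¹' {1}) := by
        ext x
        simp only [mem_preimage, mem_ofPred_eq, mem_singleton_iff, En, hde]
      rw [this, ← Measure.map_apply (measurable_pi_apply m)
        ((measurable_pi_apply v₀) (measurableSet_singleton 1)),
        limP_coord continuous_AH (surjective_AH hF) m,
        ← Measure.map_apply (measurable_pi_apply v₀) (measurableSet_singleton 1),
        Measure.infinitePi_map_eval]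
    have h3 : (iid Λ ν) (S m) = ENNReal.ofReal (1 / 2) := by
      rw [h0, h1, h2, unifZ_one]
    rw [Measure.real, h3, ENNReal.toReal_ofReal (by norm_num)]
  -- the parity relation
  have hrelY : ∀ᵐ y ∂(YH H), ∀ m, dec (y v₀) m = ∑ w ∈ N2F H v₀, dec (y w) (m + 1) := by
    unfold YH
    rw [ae_map_iff measurable_En.aemeasurable]
    · filter_upwards [limP_mem (continuous_AH (H := H))] with x hx m
      have h1 := congrFun (hx m) v₀
      simp only [En, hde]
      rw [← h1]
      rfl
    · have : {y : V → ℝ | ∀ m, dec (y v₀) m = ∑ w ∈ N2F H v₀, dec (y w) (m + 1)}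
          = ⋂ m, {y | dec (y v₀) m = ∑ w ∈ N2F H v₀, dec (y w) (m + 1)} := by
        ext y; simp
      rw [this]
      exact MeasurableSet.iInter fun m => measurableSet_eq_fun (hmeas1 v₀ m)
        (Finset.measurable_sum _ fun p _ => hmeas1 _ _)
  have hrelω : ∀ᵐ ω ∂(iid V ν₀), ∀ m,
      dec (Φ ω v₀) m = ∑ w ∈ N2F H v₀, dec (Φ ω w) (m + 1) := by
    rw [← hlaw] at hrelY
    exact ae_of_ae_map hΦ.aemeasurable hrelY
  -- the elements of the group
  have hs : ∀ w : {w // w ∈ N2F H v₀}, ∃ s : Λ, s⁻¹ • v₀ = w.1 := by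
    intro w
    obtain ⟨g, hg⟩ := hcomp w.1 (N2_reach ((mem_N2F hF).1 w.2))
    exact ⟨g⁻¹, by rw [inv_inv]; exact hg⟩
  choose s hs using hs
  obtain ⟨gc, hgi, hgc⟩ := exists_gc hF
  have hj : ∀ q : Λ × (Fin (d - 1) × Fin (d - 1)), ∃ h : Λ, h⁻¹ • v₀ = gc (q.1⁻¹ • v₀, q.2) := by
    rintro ⟨g, k⟩
    obtain ⟨u, a1, a2, _, _⟩ := hgc (g⁻¹ • v₀) k
    have h1 : H.Reachable (g⁻¹ • v₀) (gc (g⁻¹ • v₀, k)) := a1.reachable.trans a2.reachable
    have h2 := reach_smul hG hact g h1
    rw [smul_inv_smul] at h2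
    obtain ⟨g', hg'⟩ := hcomp _ h2
    refine ⟨(g⁻¹ * g')⁻¹, ?_⟩
    rw [inv_inv, mul_smul, hg', inv_smul_smul]
  choose j hj using hj
  have hji : Injective j := by
    rintro ⟨g, k⟩ ⟨g', k'⟩ e
    have h1 := hj (g, k)
    have h2 := hj (g', k')
    rw [e, h2] at h1
    have h3 := hgi h1
    rw [Prod.mk.injEq] at h3
    have h4 := free_inj hfree h3.1
    rw [inv_inj] at h4
    exact Prod.ext h4.symm h3.2.symm
  have hjs : ∀ w k, ∃ i, s i * j (w, k) = w := by
    intro w k
    obtain ⟨u, a1, a2, a3, a4⟩ := hgc (w⁻¹ • v₀) k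
    have h1 : gc (w⁻¹ • v₀, k) ∈ N2 H (w⁻¹ • v₀) := gc_mem a1 a2 a3 a4
    have h2 := N2_symm h1
    rw [← hj (w, k)] at h2
    have h3 := (N2_map (H := H) (γ := (au hact (j (w, k))).toEquiv)
      (fun a b => hG (au hact (j (w, k))) a b) ((j (w, k))⁻¹ • v₀) (w⁻¹ • v₀)).2 h2
    change (j (w, k)) • (w⁻¹ • v₀) ∈ N2 H ((j (w, k)) • ((j (w, k))⁻¹ • v₀)) at h3
    rw [smul_inv_smul] at h3
    refine ⟨⟨_, (mem_N2F hF).2 h3⟩, ?_⟩
    have h4 : (s ⟨_, (mem_N2F hF).2 h3⟩)⁻¹ • v₀ = (j (w, k) * w⁻¹) • v₀ := by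
      rw [mul_smul]
      exact hs ⟨_, (mem_N2F hF).2 h3⟩
    have h5 := free_inj hfree h4
    rw [inv_eq_iff_eq_inv, mul_inv_rev, inv_inv] at h5
    rw [h5, inv_mul_cancel_right]
  have hcard : Fintype.card {w // w ∈ N2F H v₀} + 2 ≤
      2 * Fintype.card (Fin (d - 1) × Fin (d - 1)) := by
    have h1 : Fintype.card {w // w ∈ N2F H v₀} ≤ d * (d - 1) := by
      rw [Fintype.card_coe]
      have h2 := (N2_finite_card hF v₀).2
      have h3 : (N2 H v₀).ncard = (N2F H v₀).card := by
        rw [← Set.ncard_coe_finset]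
        congr 1
        ext w
        rw [Finset.mem_coe, mem_N2F hF]
      omega
    rw [Fintype.card_prod, Fintype.card_fin]
    obtain ⟨e, he⟩ : ∃ e, d = e + 3 := ⟨d - 3, by have := hF.hd; omega⟩
    subst he
    have h4 : e + 3 - 1 = e + 2 := by omega
    rw [h4] at h1 ⊢
    nlinarith
  have hshift : ∀ᵐ x ∂(iid Λ ν), ∀ i : {w // w ∈ N2F H v₀},
      Φ (th hfree (shift (s i) x)) v₀ = Φ (th hfree x) i.1 := by
    rw [ae_all_iff]
    intro i
    have h1 : ∀ᵐ x ∂(iid Λ ν), Φ (fun v => th hfree x ((s i)⁻¹ • v)) =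
        fun v => Φ (th hfree x) ((s i)⁻¹ • v) := by
      have : ∀ᵐ ω ∂(iid V ν₀), Φ (fun v => ω ((s i)⁻¹ • v)) = fun v => Φ ω ((s i)⁻¹ • v) :=
        heq (s i)
      rw [← hmap] at this
      exact ae_of_ae_map hth.aemeasurable this
    filter_upwards [h1] with x hx
    rw [th_shift hfree, hx]
    show Φ (th hfree x) ((s i)⁻¹ • v₀) = _
    rw [hs i]
  have hrelx : ∀ᵐ x ∂(iid Λ ν), ∀ m,
      dec (Φ (th hfree x) v₀) m = ∑ w ∈ N2F H v₀, dec (Φ (th hfree x) w) (m + 1) := by
    rw [← hmap] at hrelω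
    exact ae_of_ae_map hth.aemeasurable hrelω
  refine no_solution (Γ := Λ) (ν := ν) s j hji hjs hcard S hS hhalf ?_
  intro m
  filter_upwards [hrelx, hshift] with x hx hsh
  unfold ParityRel
  have h1 : x ∈ S m ↔ dec (Φ (th hfree x) v₀) m = 1 := Iff.rfl
  have h2 : ∀ i : {w // w ∈ N2F H v₀}, shift (s i) x ∈ S (m + 1) ↔
      dec (Φ (th hfree x) i.1) (m + 1) = 1 := by
    intro i
    rw [← hsh i]
    exact Iff.rfl
  rw [h1, hx m]
  simp only [h2]
  have h3 : ∑ w ∈ N2F H v₀, dec (Φ (th hfree x) w) (m + 1)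
      = ((Finset.univ.filter fun i : {w // w ∈ N2F H v₀} =>
          dec (Φ (th hfree x) i.1) (m + 1) = 1).card : ZMod 2) := by
    rw [← Finset.sum_boole, ← Finset.sum_coe_sort (N2F H v₀)]
    exact Finset.sum_congr rfl fun i _ => ite_zmod2 _
  rw [h3]
  exact ZMod.natCast_eq_one_iff_odd

lemma factor_of_fiid (hact : ActsOn Λ G) {μ : Measure (V → ℝ)} (h : IsFIIDae G μ) :
    IsFactorIID Λ μ := by
  obtain ⟨Φ, hΦ, heq, hlaw⟩ := h
  exact ⟨unitInterval, inferInstance, volume, inferInstance, Φ, hΦ,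
    fun g => heq (au hact g), hlaw⟩

end Main

/-- There are factor of i.i.d. processes `X k` and an invariant process `Y` on `G`, all with finite
second moments, such that `d̄₂(X k, Y) → 0`, but `Y` is not a factor of i.i.d., not even by a map
which commutes only with the elements of the group `Λ` of automorphisms, and only almost surely,
and not even for labels in another probability space than `[0, 1]`. -/
def NotClosed {V : Type} (G : SimpleGraph V) (Λ : Type) [Group Λ] [MulAction Λ V] : Prop :=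
  ∃ (X : ℕ → Measure (V → ℝ)) (Y : Measure (V → ℝ)),
    (∀ k, IsInvariantLaw G (X k) ∧ IsFIID G (X k) ∧ FiniteSecondMoment (X k)) ∧
    IsInvariantLaw G Y ∧ FiniteSecondMoment Y ∧
    (∀ o : V, Tendsto (fun k => dbar2 G o (X k) Y) atTop (𝓝 0)) ∧
    ¬ IsFIIDae G Y ∧ ¬ IsFactorIID Λ Y

theorem notClosed {V : Type} [Countable V] {G H : SimpleGraph V} {d : ℕ} {Λ : Type} [Group Λ]
    [MulAction Λ V] (hF : Forest H d) (hG : Inv G H) (hact : ActsOn Λ G)
    (hfree : FreeAct Λ V) (v₀ : V) (hcomp : ∀ w, H.Reachable v₀ w → ∃ g : Λ, g • v₀ = w) :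
    NotClosed G Λ :=
  ⟨XH H, YH H, fun k => ⟨inv_XH hF hG k, fiid_XH hF hG k, second_XH k⟩, inv_YH hF hG, second_YH,
    fun o => tendsto_dbar hF hG o,
    fun h => not_factor hF hG hact hfree v₀ hcomp (factor_of_fiid hact h),
    not_factor hF hG hact hfree v₀ hcomp⟩

end Pool.Agent.KS6_56.FI
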