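import Mathlib
import Pool.Graph.R_pool_sql_team_seeded_47a924f7.T6.H59.FI.FG
import Pool.Graph.R_pool_sql_team_seeded_47a924f7.T6.H59.FI.GRAPH

/-!
Powers of free generators, and the forest given by a free subgroup.
-/

set_option autoImplicit false

open Function

namespace Pool.Agent.KS6_56.FI

/-- acyclicity from a homomorphism which is injective on the components -/
lemma acyclic_of_hom {V W : Type} {H : SimpleGraph V} {T : SimpleGraph W} (hT : T.IsAcyclic)
    (f : H →g T) (hf : ∀ v w, H.Reachable v w → f v = f w → v = w) : H.IsAcyclic := by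
  rw [SimpleGraph.isAcyclic_iff_forall_adj_isBridge]
  intro v w hvw
  rw [SimpleGraph.isBridge_iff_forall_walk_mem_edges]
  intro p
  have h1 := (SimpleGraph.isBridge_iff_forall_walk_mem_edges.1
    (SimpleGraph.isAcyclic_iff_forall_adj_isBridge.1 hT (f.map_adj hvw))) (p.map f)
  rw [SimpleGraph.Walk.edges_map, List.mem_map] at h1
  obtain ⟨e, he, hfe⟩ := h1
  induction e using Sym2.ind with
  | _ a b =>
    rw [Sym2.map_mk, Sym2.eq_iff] at hfe
    have ha : a ∈ p.support := p.fst_mem_support_of_mem_edges he
    have hb : b ∈ p.support := p.snd_mem_support_of_mem_edges he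
    classical
    have hva : H.Reachable v a := ⟨p.takeUntil a ha⟩
    have hvb : H.Reachable v b := ⟨p.takeUntil b hb⟩
    have hvw' : H.Reachable v w := hvw.reachable
    rcases hfe with ⟨h1, h2⟩ | ⟨h1, h2⟩
    · have e1 : a = v := hf _ _ hva.symm h1
      have e2 : b = w := hf _ _ (hvb.symm.trans hvw') h2
      rw [e1, e2] at he
      exact he
    · have e1 : a = w := hf _ _ (hva.symm.trans hvw') h1
      have e2 : b = v := hf _ _ hvb.symm h2
      rw [e1, e2, Sym2.eq_swap] at he
      exact he

/-- the endomorphism which takes the `n`-th powers of the generators -/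
noncomputable def pw (n : ℕ) : FreeGroup (Fin 2) →* FreeGroup (Fin 2) :=
  FreeGroup.lift fun i => FreeGroup.of i ^ n

/-- the words of the powers -/
def fl (n : ℕ) (L : List (Fin 2 × Bool)) : List (Fin 2 × Bool) :=
  L.flatMap fun l => List.replicate n l

lemma mk_replicate (n : ℕ) (l : Fin 2 × Bool) :
    FreeGroup.mk (List.replicate n l) = (FreeGroup.mk [l]) ^ n := by
  induction n with
  | zero => rfl
  | succ n ih =>
    rw [List.replicate_succ, pow_succ', ← ih, FreeGroup.mul_mk]
    rfl

lemma pw_mk_single (n : ℕ) (l : Fin 2 × Bool) :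
    pw n (FreeGroup.mk [l]) = (FreeGroup.mk [l]) ^ n := by
  obtain ⟨i, b⟩ := l
  cases b with
  | true =>
    show pw n (FreeGroup.of i) = (FreeGroup.of i) ^ n
    unfold pw
    rw [FreeGroup.lift_apply_of]
  | false =>
    have h : FreeGroup.mk [(i, false)] = (FreeGroup.of i)⁻¹ := by
      simp [FreeGroup.of, FreeGroup.inv_mk, FreeGroup.invRev]
    rw [h, map_inv, inv_pow]
    unfold pw
    rw [FreeGroup.lift_apply_of]

lemma pw_mk (n : ℕ) (L : List (Fin 2 × Bool)) :
    pw n (FreeGroup.mk L) = FreeGroup.mk (fl n L) := by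
  induction L with
  | nil =>
    show pw n 1 = 1
    exact map_one _
  | cons l L ih =>
    have h1 : FreeGroup.mk (l :: L) = FreeGroup.mk [l] * FreeGroup.mk L := by
      rw [FreeGroup.mul_mk]; rfl
    have h2 : FreeGroup.mk (fl n (l :: L)) =
        FreeGroup.mk (List.replicate n l) * FreeGroup.mk (fl n L) := by
      rw [FreeGroup.mul_mk]; rfl
    rw [h1, h2, map_mul, ih, pw_mk_single, mk_replicate]

lemma fl_reduced {n : ℕ} (hn : 1 ≤ n) {L : List (Fin 2 × Bool)} (hL : FreeGroup.IsReduced L) :
    FreeGroup.IsReduced (fl n L) := by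
  unfold FreeGroup.IsReduced at *
  induction L with
  | nil => exact List.isChain_nil
  | cons l L ih =>
    have h0 : fl n (l :: L) = List.replicate n l ++ fl n L := rfl
    rw [h0, List.isChain_append]
    refine ⟨?_, ih hL.tail, ?_⟩
    · exact List.isChain_replicate_of_rel n (fun _ => rfl)
    · intro x hx y hy
      have hx' : x = l := by
        have := List.mem_of_getLast? hx
        exact List.eq_of_mem_replicate this
      subst hx'
      cases L with
      | nil => simp [fl] at hy
      | cons m L =>
        have hy' : y = m := by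
          obtain ⟨k, rfl⟩ : ∃ k, n = k + 1 := ⟨n - 1, by omega⟩
          have : (fl (k + 1) (m :: L)).head? = some m := by
            simp [fl, List.replicate_succ]
          rw [this] at hy
          simpa using hy.symm
        subst hy'
        exact (List.isChain_cons_cons.1 hL).1

lemma pw_injective {n : ℕ} (hn : 1 ≤ n) : Injective (pw n) := by
  rw [injective_iff_map_eq_one]
  intro x hx
  rw [← FreeGroup.mk_toWord (x := x), pw_mk] at hx
  have h1 := fl_reduced hn (FreeGroup.isReduced_toWord (x := x))
  have h2 := congrArg FreeGroup.toWord hx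
  rw [FreeGroup.toWord_mk, h1.reduce_eq, FreeGroup.toWord_one] at h2
  by_contra hne
  have h3 : x.toWord ≠ [] := by
    intro h
    exact hne (FreeGroup.toWord_eq_nil_iff.1 h)
  obtain ⟨l, L, hl⟩ := List.exists_cons_of_ne_nil h3
  rw [hl] at h2
  obtain ⟨k, rfl⟩ : ∃ k, n = k + 1 := ⟨n - 1, by omega⟩
  simp [fl, List.replicate_succ] at h2

end Pool.Agent.KS6_56.FI
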