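import Pool.Agent.KS6_56.FI.C
import Pool.Agent.KS6_56.FI.D1

/-!
The forest on a group given by a free subgroup of rank two.
-/

set_option autoImplicit false

open Function

namespace Pool.Agent.KS6_56.FI

variable {Γ : Type} [Group Γ] {ψ : FreeGroup (Fin 2) →* Γ}

/-- the graph whose edges are the pairs `v, ψ l * v`, `l` a letter -/
def HFr (ψ : FreeGroup (Fin 2) →* Γ) : SimpleGraph Γ :=
  SimpleGraph.fromRel fun v w => ∃ l : Fin 2 × Bool, w = ψ (FreeGroup.mk [l]) * v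

lemma HFr_adj (hψ : Injective ψ) {v w : Γ} :
    (HFr ψ).Adj v w ↔ ∃ l : Fin 2 × Bool, w = ψ (FreeGroup.mk [l]) * v := by
  unfold HFr
  rw [SimpleGraph.fromRel_adj]
  constructor
  · rintro ⟨_, h | ⟨l, rfl⟩⟩
    · exact h
    · refine ⟨(l.1, !l.2), ?_⟩
      rw [← Pool.Agent.T6.H59.FI.Gr.mk_inv, map_inv, inv_mul_cancel_left]
  · rintro ⟨l, rfl⟩
    refine ⟨?_, Or.inl ⟨l, rfl⟩⟩
    intro h
    have h1 : ψ (FreeGroup.mk [l]) = 1 := by
      have := h.symm
      rwa [mul_eq_right] at this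
    rw [← map_one ψ] at h1
    exact Pool.Agent.T6.H59.FI.Gr.mk_ne_one l (hψ h1)

/-- representative of the coset -/
noncomputable def rp (ψ : FreeGroup (Fin 2) →* Γ) (v : Γ) : Γ :=
  Quotient.out (Quotient.mk (QuotientGroup.rightRel ψ.range) v)

lemma rp_spec (v : Γ) : ∃ x, ψ x = v * (rp ψ v)⁻¹ := by
  have h1 : (QuotientGroup.rightRel ψ.range) (rp ψ v) v :=
    Quotient.exact (Quotient.out_eq _)
  rw [QuotientGroup.rightRel_apply] at h1
  exact h1

lemma rp_mul (t : FreeGroup (Fin 2)) (v : Γ) : rp ψ (ψ t * v) = rp ψ v := by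
  unfold rp
  congr 1
  refine Quotient.sound ?_
  show (QuotientGroup.rightRel ψ.range) _ _
  rw [QuotientGroup.rightRel_apply]
  exact ⟨t⁻¹, by rw [mul_inv_rev, mul_inv_cancel_left, map_inv]⟩

/-- the position in the coset -/
noncomputable def ps (ψ : FreeGroup (Fin 2) →* Γ) (v : Γ) : FreeGroup (Fin 2) :=
  Classical.choose (rp_spec (ψ := ψ) v)

lemma ps_spec (v : Γ) : ψ (ps ψ v) = v * (rp ψ v)⁻¹ := Classical.choose_spec (rp_spec (ψ := ψ) v)

lemma ps_mul (hψ : Injective ψ) (t : FreeGroup (Fin 2)) (v : Γ) :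
    ps ψ (ψ t * v) = t * ps ψ v := by
  apply hψ
  rw [ps_spec, map_mul, ps_spec, rp_mul, mul_assoc]

theorem forest_HFr (hψ : Injective ψ) : Forest (HFr ψ) 4 := by
  refine ⟨?_, ?_, by norm_num⟩
  · obtain ⟨T, hs, _⟩ := Pool.Agent.T6.H59.FI.stmFG 2 le_rfl
    obtain ⟨hT, _⟩ := Pool.Agent.T6.H59.FI.stmGRAPH 2 T le_rfl hs
    refine acyclic_of_hom hT.isAcyclic ⟨ps ψ, ?_⟩ ?_
    · intro v w hvw
      obtain ⟨l, rfl⟩ := (HFr_adj hψ).1 hvw
      rw [Pool.Agent.T6.H59.FI.Gr.adj_iff T hs]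
      exact ⟨l, ps_mul hψ _ _⟩
    · intro v w hr he
      have h1 : rp ψ v = rp ψ w := by
        obtain ⟨p⟩ := hr
        clear he
        induction p with
        | nil => rfl
        | cons hadj _ ih =>
          obtain ⟨l, rfl⟩ := (HFr_adj hψ).1 hadj
          rw [← ih, rp_mul]
      have he : ps ψ v = ps ψ w := he
      have h2 := ps_spec (ψ := ψ) v
      rw [he, ps_spec, h1] at h2
      exact (mul_right_cancel h2).symm
  · intro v
    have h1 : (HFr ψ).neighborSet v =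
        (fun l : Fin 2 × Bool => ψ (FreeGroup.mk [l]) * v) '' Set.univ := by
      ext w
      rw [SimpleGraph.mem_neighborSet, HFr_adj hψ]
      simp only [Set.image_univ, Set.mem_range]
      exact ⟨fun ⟨l, h⟩ => ⟨l, h.symm⟩, fun ⟨l, h⟩ => ⟨l, h.symm⟩⟩
    rw [h1, Set.ncard_image_of_injective, Set.ncard_univ, Nat.card_eq_fintype_card]
    · rfl
    · intro l m h
      exact Pool.Agent.T6.H59.FI.Gr.mk_injective (hψ (mul_right_cancel h))

/-! ### Cayley graphs -/

/-- the Cayley graph: the edges are the pairs `v, s v` with `s ∈ S` -/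
def Cay (S : Finset Γ) : SimpleGraph Γ := SimpleGraph.fromRel fun v w => w * v⁻¹ ∈ S

lemma Cay_adj {S : Finset Γ} (h1 : (1 : Γ) ∉ S) (hinv : ∀ s ∈ S, s⁻¹ ∈ S) {v w : Γ} :
    (Cay S).Adj v w ↔ w * v⁻¹ ∈ S := by
  unfold Cay
  rw [SimpleGraph.fromRel_adj]
  constructor
  · rintro ⟨_, h | h⟩
    · exact h
    · have := hinv _ h
      rwa [mul_inv_rev, inv_inv] at this
  · intro h
    refine ⟨?_, Or.inl h⟩
    rintro rfl
    rw [mul_inv_cancel] at h
    exact h1 h

lemma Cay_acts (S : Finset Γ) : ActsOn Γᵐᵒᵖ (Cay S) := by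
  intro g v w
  have h : ∀ a b : Γ, (g • b) * (g • a)⁻¹ = b * a⁻¹ := by
    intro a b
    show (b * g.unop) * (a * g.unop)⁻¹ = b * a⁻¹
    rw [mul_inv_rev, mul_assoc, mul_inv_cancel_left]
  unfold Cay
  rw [SimpleGraph.fromRel_adj, SimpleGraph.fromRel_adj, h, h]
  have : (g • v ≠ g • w) ↔ v ≠ w := by
    rw [ne_eq, ne_eq, smul_left_cancel_iff]
  rw [this]

lemma free_op : FreeAct Γᵐᵒᵖ Γ := by
  intro g v h
  have h1 : v * g.unop = v := h
  rw [mul_eq_left] at h1
  exact MulOpposite.unop_injective h1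

lemma trans_op (v w : Γ) : ∃ g : Γᵐᵒᵖ, g • v = w :=
  ⟨MulOpposite.op (v⁻¹ * w), by show v * (v⁻¹ * w) = w; rw [mul_inv_cancel_left]⟩

lemma Cay_connected {S : Finset Γ} (h1 : (1 : Γ) ∉ S) (hinv : ∀ s ∈ S, s⁻¹ ∈ S)
    (hcl : Subgroup.closure (S : Set Γ) = ⊤) : (Cay S).Connected := by
  have key : ∀ g ∈ Subgroup.closure (S : Set Γ), ∀ v : Γ, (Cay S).Reachable v (g * v) := by
    intro g hg
    induction hg using Subgroup.closure_induction with
    | mem s hs =>
      intro v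
      refine SimpleGraph.Adj.reachable ?_
      rw [Cay_adj h1 hinv, mul_inv_cancel_right]
      exact hs
    | one => intro v; rw [one_mul]
    | mul a b _ _ ha hb =>
      intro v
      rw [mul_assoc]
      exact (hb v).trans (ha _)
    | inv a _ ha =>
      intro v
      have := ha (a⁻¹ * v)
      rw [mul_inv_cancel_left] at this
      exact this.symm
  refine ⟨fun v w => ?_⟩
  have := key (w * v⁻¹) (by rw [hcl]; trivial) v
  rwa [inv_mul_cancel_right] at this

end Pool.Agent.KS6_56.FI
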