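import Pool.Agent.KS6_56.FI.D2

/-!
Every finitely generated group with a free subgroup of rank two has Cayley graphs, with arbitrarily
large finite generating sets, on which the factors of i.i.d. are not closed.
-/

set_option autoImplicit false

open Function
open scoped Pointwise

namespace Pool.Agent.KS6_56.FI

/-- exponent sum -/
noncomputable def E1 (x : FreeGroup (Fin 2)) : ℤ :=
  Multiplicative.toAdd ((FreeGroup.lift fun _ => Multiplicative.ofAdd (1 : ℤ)) x)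

/-- difference of the exponent sums -/
noncomputable def E2 (x : FreeGroup (Fin 2)) : ℤ :=
  Multiplicative.toAdd ((FreeGroup.lift fun i : Fin 2 =>
    Multiplicative.ofAdd (if i = 0 then (1 : ℤ) else -1)) x)

lemma E1_mul (x y : FreeGroup (Fin 2)) : E1 (x * y) = E1 x + E1 y := by
  unfold E1; rw [map_mul, toAdd_mul]

lemma E2_mul (x y : FreeGroup (Fin 2)) : E2 (x * y) = E2 x + E2 y := by
  unfold E2; rw [map_mul, toAdd_mul]

lemma E1_inv (x : FreeGroup (Fin 2)) : E1 x⁻¹ = - E1 x := by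
  unfold E1; rw [map_inv, toAdd_inv]

lemma E2_inv (x : FreeGroup (Fin 2)) : E2 x⁻¹ = - E2 x := by
  unfold E2; rw [map_inv, toAdd_inv]

lemma E1_pow (x : FreeGroup (Fin 2)) (n : ℕ) : E1 (x ^ n) = n * E1 x := by
  unfold E1; rw [map_pow, toAdd_pow, nsmul_eq_mul]

lemma E2_pow (x : FreeGroup (Fin 2)) (n : ℕ) : E2 (x ^ n) = n * E2 x := by
  unfold E2; rw [map_pow, toAdd_pow, nsmul_eq_mul]

/-- sign -/
def sg (l : Fin 2 × Bool) : ℤ := if l.2 then 1 else -1

/-- sign with respect to the difference -/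
def sp (l : Fin 2 × Bool) : ℤ := if l.2 then (if l.1 = 0 then 1 else -1) else
  -(if l.1 = 0 then 1 else -1)

/-- the element -/
noncomputable def Xe (n : ℕ) (l : Fin 2 × Bool) : FreeGroup (Fin 2) := pw n (FreeGroup.mk [l])

lemma E1_Xe (n : ℕ) (l : Fin 2 × Bool) : E1 (Xe n l) = n * sg l := by
  unfold Xe
  rw [pw_mk_single, E1_pow]
  congr 1
  obtain ⟨i, b⟩ := l
  cases b <;> simp [E1, sg]

lemma E2_Xe (n : ℕ) (l : Fin 2 × Bool) : E2 (Xe n l) = n * sp l := by
  unfold Xe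
  rw [pw_mk_single, E2_pow]
  congr 1
  obtain ⟨i, b⟩ := l
  cases b <;> fin_cases i <;> simp [E2, sp]

lemma sg_cases (l : Fin 2 × Bool) : sg l = 1 ∨ sg l = -1 := by
  unfold sg; split_ifs <;> simp

lemma sp_cases (l : Fin 2 × Bool) : sp l = 1 ∨ sp l = -1 := by
  unfold sp; split_ifs <;> simp

lemma eq_of_signs : ∀ l m : Fin 2 × Bool, sg l = sg m → sp l = sp m → l = m := by decide

lemma arith {n M : ℕ} (hn : M < n) {a b : ℤ} (ha : a = 1 ∨ a = -1) (hb : b = 1 ∨ b = -1)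
    (h : (n * a - n * b).natAbs ≤ M) : a = b := by
  rcases ha with rfl | rfl <;> rcases hb with rfl | rfl <;> first | rfl | omega

lemma exists_bound' {Γ : Type} [Group Γ] {φ : FreeGroup (Fin 2) →* Γ} (hφ : Injective φ)
    (D : Finset Γ) : ∃ M : ℕ, ∀ x, φ x ∈ D → (E1 x).natAbs ≤ M ∧ (E2 x).natAbs ≤ M := by
  classical
  refine ⟨(D.preimage φ hφ.injOn).sup fun x => (E1 x).natAbs + (E2 x).natAbs, fun x hx => ?_⟩
  have h1 : x ∈ D.preimage φ hφ.injOn := by
    rw [Finset.mem_preimage]; exact hx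
  have h2 := Finset.le_sup (f := fun x => (E1 x).natAbs + (E2 x).natAbs) h1
  omega

theorem exists_cayley {Γ : Type} [Group Γ] [hfg : Group.FG Γ] (φ : FreeGroup (Fin 2) →* Γ)
    (hφ : Injective φ) (A : Finset Γ) (hA : (1 : Γ) ∉ A) :
    ∃ S : Finset Γ, A ⊆ S ∧ (1 : Γ) ∉ S ∧ (∀ s ∈ S, s⁻¹ ∈ S) ∧ (Cay S).Connected ∧
      NotClosed (Cay S) Γᵐᵒᵖ := by
  classical
  obtain ⟨S0, hS0⟩ := (Group.fg_def.1 hfg)
  set a : Γ := φ (FreeGroup.of 0) with ha
  set b : Γ := φ (FreeGroup.of 1) with hb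
  have hab : a ≠ b := by
    intro h
    have := FreeGroup.of_injective (hφ h)
    exact absurd this (by decide)
  have ha1 : a ≠ 1 := by
    intro h
    rw [ha, ← map_one φ] at h
    exact FreeGroup.of_ne_one 0 (hφ h)
  have hb1 : b ≠ 1 := by
    intro h
    rw [hb, ← map_one φ] at h
    exact FreeGroup.of_ne_one 1 (hφ h)
  set B0 : Finset Γ := S0 ∪ A ∪ {1, a, b} with hB0
  set B : Finset Γ := B0 ∪ B0⁻¹ with hB
  have hBinv : ∀ x ∈ B, x⁻¹ ∈ B := by
    intro x hx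
    rw [hB, Finset.mem_union] at hx ⊢
    rcases hx with h | h
    · right
      rw [Finset.mem_inv']
      rwa [inv_inv]
    · left
      rwa [Finset.mem_inv'] at h
  have hB1 : (1 : Γ) ∈ B := by simp [hB, hB0]
  have hBa : a ∈ B := by simp [hB, hB0]
  have hBb : b ∈ B := by simp [hB, hB0]
  set U : Finset Γ := (B * B).erase 1 with hU
  have memU : ∀ u, u ∈ U ↔ u ≠ 1 ∧ ∃ x ∈ B, ∃ y ∈ B, x * y = u := by
    intro u
    rw [hU, Finset.mem_erase, Finset.mem_mul]
  have hU1 : (1 : Γ) ∉ U := by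
    intro h
    exact ((memU 1).1 h).1 rfl
  have hUinv : ∀ u ∈ U, u⁻¹ ∈ U := by
    intro u hu
    obtain ⟨h1, x, hx, y, hy, rfl⟩ := (memU u).1 hu
    exact (memU _).2 ⟨by rwa [ne_eq, inv_eq_one], y⁻¹, hBinv y hy, x⁻¹, hBinv x hx,
      by rw [mul_inv_rev]⟩
  have hBU : ∀ x ∈ B, x ≠ 1 → x ∈ U := fun x hx h => (memU x).2 ⟨h, x, hx, 1, hB1, mul_one x⟩
  have htri : ∀ u ∈ U, ∃ u₁ ∈ U, ∃ u₂ ∈ U, u₂ * u₁ = u := by
    have hone : ∀ x ∈ B, x ≠ 1 → ∃ u₁ ∈ U, ∃ u₂ ∈ U, u₂ * u₁ = x := by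
      intro x hx hx1
      obtain ⟨c, hc, hc1, hcx⟩ : ∃ c ∈ B, c ≠ 1 ∧ c ≠ x := by
        by_cases h : a = x
        · exact ⟨b, hBb, hb1, fun e => hab (h.trans e.symm)⟩
        · exact ⟨a, hBa, ha1, h⟩
      refine ⟨c, hBU c hc hc1, x * c⁻¹, (memU _).2 ⟨?_, x, hx, c⁻¹, hBinv c hc, rfl⟩, ?_⟩
      · intro e
        rw [mul_inv_eq_one] at e
        exact hcx e.symm
      · rw [inv_mul_cancel_right]
    intro u hu
    obtain ⟨h1, x, hx, y, hy, rfl⟩ := (memU u).1 hu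
    by_cases hx1 : x = 1
    · subst hx1
      rw [one_mul] at h1 ⊢
      exact hone y hy h1
    · by_cases hy1 : y = 1
      · subst hy1
        rw [mul_one] at h1 ⊢
        exact hone x hx h1
      · exact ⟨y, hBU y hy hy1, x, hBU x hx hx1, rfl⟩
  obtain ⟨M, hM⟩ := exists_bound' hφ (U * U ∪ U)
  set n : ℕ := M + 1 with hn
  have hMn : M < n := Nat.lt_succ_self M
  set ψ : FreeGroup (Fin 2) →* Γ := φ.comp (pw n) with hψ
  have hψi : Injective ψ := hφ.comp (pw_injective (by omega))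
  have hψl : ∀ l, ψ (FreeGroup.mk [l]) = φ (Xe n l) := fun l => rfl
  set T : Finset Γ := Finset.univ.image fun l : Fin 2 × Bool => φ (Xe n l) with hT
  have memT : ∀ t, t ∈ T ↔ ∃ l, φ (Xe n l) = t := by
    intro t
    simp [hT]
  set S : Finset Γ := U ∪ T with hS
  have memS : ∀ s, s ∈ S ↔ s ∈ U ∨ ∃ l, φ (Xe n l) = s := by
    intro s
    rw [hS, Finset.mem_union, memT]
  have hS1 : (1 : Γ) ∉ S := by
    intro h
    rcases (memS 1).1 h with h | ⟨l, h⟩
    · exact hU1 h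
    · rw [← hψl, ← map_one ψ] at h
      exact Pool.Agent.T6.H59.FI.Gr.mk_ne_one l (hψi h)
  have hSinv : ∀ s ∈ S, s⁻¹ ∈ S := by
    intro s hs
    rcases (memS s).1 hs with h | ⟨l, h⟩
    · exact (memS _).2 (Or.inl (hUinv s h))
    · refine (memS _).2 (Or.inr ⟨(l.1, !l.2), ?_⟩)
      rw [← h, ← hψl, ← hψl, ← Pool.Agent.T6.H59.FI.Gr.mk_inv, map_inv]
  -- no triangle contains an edge of the forest
  have hno : ∀ l, ∀ s₁ ∈ S, ∀ s₂ ∈ S, s₂ * s₁ ≠ φ (Xe n l) := by
    intro l s₁ h₁ s₂ h₂ he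
    rcases (memS _).1 h₁ with h₁ | ⟨m, h₁⟩ <;> rcases (memS _).1 h₂ with h₂ | ⟨k, h₂⟩
    · have h3 : φ (Xe n l) ∈ U * U ∪ U := by
        rw [← he]
        exact Finset.mem_union_left _ (Finset.mul_mem_mul h₂ h₁)
      have h4 := (hM _ h3).1
      rw [E1_Xe] at h4
      rcases sg_cases l with h | h <;> rw [h] at h4 <;> omega
    · have h3 : φ ((Xe n k)⁻¹ * Xe n l) ∈ U * U ∪ U := by
        rw [map_mul, map_inv, h₂, ← he, inv_mul_cancel_left]
        exact Finset.mem_union_right _ h₁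
      obtain ⟨h4, h5⟩ := hM _ h3
      rw [E1_mul, E1_inv, E1_Xe, E1_Xe, neg_add_eq_sub] at h4
      rw [E2_mul, E2_inv, E2_Xe, E2_Xe, neg_add_eq_sub] at h5
      have e1 := arith hMn (sg_cases l) (sg_cases k) h4
      have e2 := arith hMn (sp_cases l) (sp_cases k) h5
      have e3 := eq_of_signs _ _ e1 e2
      subst e3
      rw [← h₂, mul_eq_left] at he
      exact hU1 (he ▸ h₁)
    · have h3 : φ (Xe n l * (Xe n m)⁻¹) ∈ U * U ∪ U := by
        rw [map_mul, map_inv, h₁, ← he, mul_inv_cancel_right]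
        exact Finset.mem_union_right _ h₂
      obtain ⟨h4, h5⟩ := hM _ h3
      rw [E1_mul, E1_inv, E1_Xe, E1_Xe, ← sub_eq_add_neg] at h4
      rw [E2_mul, E2_inv, E2_Xe, E2_Xe, ← sub_eq_add_neg] at h5
      have e1 := arith hMn (sg_cases l) (sg_cases m) h4
      have e2 := arith hMn (sp_cases l) (sp_cases m) h5
      have e3 := eq_of_signs _ _ e1 e2
      subst e3
      rw [← h₁, mul_eq_right] at he
      exact hU1 (he ▸ h₂)
    · rw [← h₁, ← h₂, ← map_mul] at he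
      have h3 := congrArg E1 (hφ he)
      rw [E1_mul, E1_Xe, E1_Xe, E1_Xe] at h3
      rcases sg_cases l with h | h <;> rcases sg_cases m with h' | h' <;>
        rcases sg_cases k with h'' | h'' <;> rw [h, h', h''] at h3 <;> omega
  have hadj : ∀ v w, (HFr ψ).Adj v w ↔ (Cay S).Adj v w ∧
      ∀ z, ¬ ((Cay S).Adj v z ∧ (Cay S).Adj z w) := by
    intro v w
    rw [HFr_adj hψi]
    constructor
    · rintro ⟨l, rfl⟩
      rw [hψl]
      refine ⟨?_, ?_⟩
      · rw [Cay_adj hS1 hSinv, mul_inv_cancel_right]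
        exact (memS _).2 (Or.inr ⟨l, rfl⟩)
      · rintro z ⟨h1, h2⟩
        rw [Cay_adj hS1 hSinv] at h1 h2
        refine hno l _ h1 _ h2 ?_
        rw [mul_assoc, inv_mul_cancel_left, mul_inv_cancel_right]
    · rintro ⟨h1, h2⟩
      rw [Cay_adj hS1 hSinv] at h1
      rcases (memS _).1 h1 with h | ⟨l, h⟩
      · exfalso
        obtain ⟨u₁, hu₁, u₂, hu₂, he⟩ := htri _ h
        refine h2 (u₁ * v) ⟨?_, ?_⟩
        · rw [Cay_adj hS1 hSinv, mul_inv_cancel_right]
          exact (memS _).2 (Or.inl hu₁)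
        · rw [Cay_adj hS1 hSinv, mul_inv_rev, ← mul_assoc, ← he, mul_inv_cancel_right]
          exact (memS _).2 (Or.inl hu₂)
      · refine ⟨l, ?_⟩
        rw [hψl, h, inv_mul_cancel_right]
  have hInv : Inv (Cay S) (HFr ψ) := by
    intro γ v w
    rw [hadj, hadj, γ.map_adj_iff]
    refine and_congr_right fun _ => ?_
    constructor
    · intro h z hz
      exact h (γ z) ⟨γ.map_adj_iff.2 hz.1, γ.map_adj_iff.2 hz.2⟩
    · intro h z hz
      refine h (γ.symm z) ⟨?_, ?_⟩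
      · rw [← γ.map_adj_iff, γ.apply_symm_apply]; exact hz.1
      · rw [← γ.map_adj_iff, γ.apply_symm_apply]; exact hz.2
  have hcount : Countable Γ := by
    obtain ⟨α, hα, χ, hχ⟩ := Group.fg_iff_exists_freeGroup_hom_surjective_finite.1 hfg
    have : Countable (FreeGroup α) := by
      unfold FreeGroup
      infer_instance
    exact hχ.countable
  refine ⟨S, ?_, hS1, hSinv, ?_, ?_⟩
  · intro x hx
    refine (memS x).2 (Or.inl (hBU x ?_ fun h => hA (h ▸ hx)))
    simp [hB, hB0, hx]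
  · refine Cay_connected hS1 hSinv ?_
    rw [eq_top_iff, ← hS0, Subgroup.closure_le]
    intro x hx
    by_cases h : x = 1
    · rw [h]; exact Subgroup.one_mem _
    · apply Subgroup.subset_closure
      refine (memS x).2 (Or.inl (hBU x ?_ h))
      have hx' : x ∈ S0 := hx
      simp [hB, hB0, hx']
  · exact notClosed (forest_HFr hψi) hInv (Cay_acts S) free_op (1 : Γ)
      (fun w _ => trans_op 1 w)

end Pool.Agent.KS6_56.FI
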