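import Pool.Agent.KS6_56.FI.D3

/-!
The regular trees, and the elementary properties of the Cayley graphs.
-/

set_option autoImplicit false

open Function

namespace Pool.Agent.KS6_56.FI

open Pool.Agent.helper25_fiid

lemma Cay_finite {Γ : Type} [Group Γ] {S : Finset Γ} (h1 : (1 : Γ) ∉ S)
    (hinv : ∀ s ∈ S, s⁻¹ ∈ S) (v : Γ) : ((Cay S).neighborSet v).Finite := by
  refine (S.finite_toSet.image fun s => s * v).subset ?_
  intro w hw
  rw [SimpleGraph.mem_neighborSet, Cay_adj h1 hinv] at hw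
  exact ⟨w * v⁻¹, hw, by simp⟩

lemma Cay_transitive {Γ : Type} [Group Γ] (S : Finset Γ) (v w : Γ) :
    ∃ γ : Cay S ≃g Cay S, γ v = w := by
  obtain ⟨g, hg⟩ := trans_op v w
  exact ⟨au (Cay_acts S) g, hg⟩

theorem exists_tree (d : ℕ) (hd : 3 ≤ d) : ∃ (V : Type) (_ : Countable V) (G : SimpleGraph V)
    (Λ : Type) (_ : Group Λ) (_ : MulAction Λ V), G.IsTree ∧
    (∀ v, (G.neighborSet v).ncard = d) ∧ ActsOn Λ G ∧ FreeAct Λ V ∧
    (∀ v w : V, ∃ g : Λ, g • v = w) ∧ NotClosed G Λ := by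
  obtain ⟨n, rfl⟩ : ∃ n, d = n + 1 := ⟨d - 1, by omega⟩
  have hdeg : ∀ v, ((RW.tree n).neighborSet v).ncard = n + 1 := by
    intro v
    rw [← RW.degree_eq v, Set.ncard_eq_toFinset_card']
    rfl
  have hact : ActsOn (RW n)ᵐᵒᵖ (RW.tree n) := by
    intro g v w
    exact (RW.rmul g.unop).map_adj_iff (v := v) (w := w)
  have hF : Forest (RW.tree n) (n + 1) := ⟨RW.isAcyclic, hdeg, hd⟩
  refine ⟨RW n, inferInstance, RW.tree n, (RW n)ᵐᵒᵖ, inferInstance, inferInstance,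
    ⟨RW.connected, RW.isAcyclic⟩, hdeg, hact, free_op, trans_op, ?_⟩
  exact notClosed hF (fun γ v w => γ.map_adj_iff) hact free_op (1 : RW n)
    (fun w _ => trans_op 1 w)

end Pool.Agent.KS6_56.FI
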